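import Mathlib

set_option autoImplicit false

namespace Pool.Agent.Results.MP_615e1a_lc.Holds

open FirstOrder FirstOrder.Language

universe u v w

def Sunf (L : FirstOrder.Language.{u, v}) (M : Type w) [L.Structure M] (n : ℕ) : Prop :=
  ∀ (V : Type w) (Y : Set (Finset V)) [L.Structure Y], (∀ p ∈ Y, p.card = n) →
    Nonempty (L.Equiv Y M) → ∃ Z : L.Substructure Y, Nonempty (L.Equiv Z Y) ∧
      ∃ r : Set V, ∀ p ∈ Z, ∀ q ∈ Z, p ≠ q → (p.1 : Set V) ∩ (q.1 : Set V) = r

variable {L : FirstOrder.Language.{u, v}} {M : Type w} [L.Structure M]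

def W (L : FirstOrder.Language.{u, v}) (M : Type w) [L.Structure M] (n : ℕ) : Prop :=
  ∀ (V : Type w) (s : M → Finset V), Function.Injective s → (∀ a, (s a).card = n) →
    ∃ e : M ↪[L] M, ∃ r : Set V, ∀ a b, a ≠ b → (s (e a) : Set V) ∩ s (e b) = r

lemma W_of {n : ℕ} (h : Sunf L M n) : W L M n := by
  intro V s hs hc
  let _ := (Equiv.ofInjective s hs).inducedStructure (L := L)
  let φ := (Equiv.ofInjective s hs).inducedStructureEquiv (L := L)
  obtain ⟨Z, ⟨ψ⟩, r, hr⟩ := h V (Set.range s) (by rintro _ ⟨a, rfl⟩; exact hc a) ⟨φ.symm⟩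
  refine ⟨φ.symm.toEmbedding.comp (Z.subtype.comp (ψ.symm.toEmbedding.comp φ.toEmbedding)), r,
    fun a b hab => ?_⟩
  have key : ∀ y : Set.range s, s (φ.symm y) = y.1 := fun y =>
    congrArg Subtype.val (φ.apply_symm_apply y)
  have := hr _ (ψ.symm (φ a)).2 _ (ψ.symm (φ b)).2 fun he =>
    hab (φ.injective (ψ.symm.injective (Subtype.ext he)))
  rw [← key, ← key] at this
  exact this

lemma of_W {n : ℕ} (h : W L M n) : Sunf L M n := by
  intro V Y _ hc ⟨φ⟩
  obtain ⟨e, r, hr⟩ := h V (fun a => (φ.symm a).1)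
    (Subtype.val_injective.comp φ.symm.injective) fun a => hc _ (φ.symm a).2
  let f : Y ↪[L] Y := φ.symm.toEmbedding.comp (e.comp φ.toEmbedding)
  refine ⟨f.toHom.range, ⟨f.equivRange.symm⟩, r, ?_⟩
  rintro _ ⟨a, rfl⟩ _ ⟨b, rfl⟩ hab
  exact hr (φ a) (φ b) fun he => hab (congrArg f (φ.injective he))

lemma iter {ι : Type} (P : ι → (M ↪[L] M) → Prop)
    (h1 : ∀ i e, P i e → ∀ g : M ↪[L] M, P i (e.comp g))
    (h2 : ∀ i (e : M ↪[L] M), ∃ g : M ↪[L] M, P i (e.comp g)) (t : Finset ι) (e : M ↪[L] M) :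
    ∃ g : M ↪[L] M, ∀ i ∈ t, P i (e.comp g) := by
  classical
  induction t using Finset.induction_on with
  | empty => exact ⟨Embedding.refl L M, by simp⟩
  | insert j t _ ih =>
    obtain ⟨g, hg⟩ := ih
    obtain ⟨k, hk⟩ := h2 j (e.comp g)
    refine ⟨g.comp k, fun i hi => ?_⟩
    rcases Finset.mem_insert.1 hi with rfl | hi
    · exact hk
    · exact h1 i _ (hg i hi) k

lemma step1 (h : W L M 2) {V : Type w} (x : M → V) :
    ∃ g : M ↪[L] M, (∀ a b, x (g a) = x (g b)) ∨ Function.Injective fun a => x (g a) := by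
  classical
  obtain ⟨g, r, hr⟩ := h (V ⊕ M) (fun a => {Sum.inl (x a), Sum.inr a})
    (fun a b hab => by
      beta_reduce at hab
      have : Sum.inr a ∈ ({Sum.inl (x b), Sum.inr b} : Finset (V ⊕ M)) := by
        rw [← hab]; simp
      simpa using this) (fun a => by simp)
  refine ⟨g, or_iff_not_imp_right.2 fun hn a b => ?_⟩
  obtain ⟨c, d, hcd, hne⟩ := Function.not_injective_iff.1 hn
  have h1 : Sum.inl (x (g c)) ∈ r := by rw [← hr c d hne]; simp [hcd]
  by_cases hab : a = b
  · rw [hab]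
  · rw [← hr a b hab] at h1
    simp at h1
    exact h1.1.symm.trans h1.2

lemma step2 [Infinite M] (h : W L M 2) {V : Type w} [LinearOrder V] (x y : M → V)
    (hx : Function.Injective x) (hy : Function.Injective y) (hxy : ∀ a, x a < y a) :
    ∃ g : M ↪[L] M, ∀ a b, x (g a) ≠ y (g b) := by
  classical
  obtain ⟨g, r, hr⟩ := h V (fun a => {x a, y a})
    (fun a b hab => by
      beta_reduce at hab
      have h1 : x a ∈ ({x b, y b} : Finset V) := by rw [← hab]; simp
      have h2 : x b ∈ ({x a, y a} : Finset V) := by rw [hab]; simp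
      simp only [Finset.mem_insert, Finset.mem_singleton] at h1 h2
      rcases h1 with h1 | h1
      · exact hx h1
      · rcases h2 with h2 | h2
        · exact hx h2.symm
        · exact absurd (hxy a) (not_lt.2 (by rw [h1, ← h2]; exact (hxy b).le)))
    (fun a => Finset.card_pair (hxy a).ne)
  refine ⟨g, fun a b hab => ?_⟩
  by_cases he : a = b
  · subst he; exact (hxy _).ne hab
  obtain ⟨c, hc⟩ := Infinite.exists_notMem_finset ({a, b} : Finset M)
  simp only [Finset.mem_insert, Finset.mem_singleton, not_or] at hc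
  have h1 : x (g a) ∈ r := by rw [← hr a b he]; simp [hab]
  rw [← hr c a hc.1] at h1
  rcases (by simpa using h1.1 : x (g a) = x (g c) ∨ x (g a) = y (g c)) with h2 | h2
  · exact hc.1 (g.injective (hx h2)).symm
  · exact hc.2 (g.injective (hy (h2.symm.trans hab)))

theorem result (L : FirstOrder.Language.{u, v}) (M : Type w) [L.Structure M] [Infinite M]
    (h : Sunf L M 2) (n : ℕ) : Sunf L M n := by
  classical
  refine of_W fun V s _ hc => ?_
  have h := W_of h
  let _ : LinearOrder V := linearOrderOfSTO WellOrderingRel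
  let x : Fin n → M → V := fun i a => (s a).orderEmbOfFin (hc a) i
  have hs : ∀ a z, z ∈ (s a : Set V) ↔ ∃ i, x i a = z := fun a z => by
    rw [← Finset.range_orderEmbOfFin (s a) (hc a)]; rfl
  obtain ⟨e, he⟩ := iter (fun (i : Fin n) (e : M ↪[L] M) =>
    (∀ a b, x i (e a) = x i (e b)) ∨ Function.Injective fun a => x i (e a))
    (fun i e h g => h.imp (fun h a b => h _ _) fun h => h.comp g.injective)
    (fun i e => step1 h fun a => x i (e a)) Finset.univ (Embedding.refl L M)
  set e1 := (Embedding.refl L M).comp e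
  obtain ⟨g, hg⟩ := iter (fun (p : Fin n × Fin n) (k : M ↪[L] M) => p.1 < p.2 →
    (Function.Injective fun a => x p.1 (e1 a)) → (Function.Injective fun a => x p.2 (e1 a)) →
      ∀ a b, x p.1 (e1 (k a)) ≠ x p.2 (e1 (k b)))
    (fun p k h g h1 h2 h3 a b => h h1 h2 h3 _ _)
    (fun p k => by
      by_cases hp : p.1 < p.2 ∧ (Function.Injective fun a => x p.1 (e1 a)) ∧
          Function.Injective fun a => x p.2 (e1 a)
      · obtain ⟨g, hg⟩ := step2 h (fun a => x p.1 (e1 (k a))) (fun a => x p.2 (e1 (k a)))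
          (hp.2.1.comp k.injective) (hp.2.2.comp k.injective)
          fun a => ((s _).orderEmbOfFin (hc _)).strictMono hp.1
        exact ⟨g, fun _ _ _ => hg⟩
      · exact ⟨k, fun h1 h2 h3 => absurd ⟨h1, h2, h3⟩ hp⟩) Finset.univ (Embedding.refl L M)
  set g1 := (Embedding.refl L M).comp g
  refine ⟨e1.comp g1, {z | ∀ a, z ∈ (s (e1 a) : Set V)}, fun a b hab => ?_⟩
  ext z
  refine ⟨fun ⟨h1, h2⟩ c => ?_, fun hz => ⟨hz _, hz _⟩⟩
  obtain ⟨i, hi⟩ := (hs _ _).1 h1
  obtain ⟨j, hj⟩ := (hs _ _).1 h2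
  rcases he i (Finset.mem_univ _) with h3 | h3
  · exact (hs _ _).2 ⟨i, (h3 _ _).trans hi⟩
  rcases he j (Finset.mem_univ _) with h4 | h4
  · exact (hs _ _).2 ⟨j, (h4 _ _).trans hj⟩
  exfalso
  rcases lt_trichotomy i j with hij | rfl | hij
  · exact hg (i, j) (Finset.mem_univ _) hij h3 h4 a b (hi.trans hj.symm)
  · exact hab (g1.injective (h3 (hi.trans hj.symm)))
  · exact hg (j, i) (Finset.mem_univ _) hij h4 h3 b a (hj.trans hi.symm)

end Pool.Agent.Results.MP_615e1a_lc.Holds
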